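import Mathlib

set_option autoImplicit false

/-!
# A Hitchin-section Higgs bundle on the plane without harmonic metric

The question: does `(K_{X,n}, θ(q))` admit a harmonic metric for every `n ≥ 2`, every parabolic
Riemann surface `X` and every `q ≠ 0`? We show that the answer is no, with `X` the plane, `n = 3`
and the constant differentials `q_2 = 6 dz ^ 2`, `q_3 = - 16 dz ^ 3`: the Higgs field is
`θ = A0 dz`, where `A0` is a constant matrix with characteristic polynomial `(X - 2)^2 (X + 4)`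
which is not diagonalisable.

Proof. Let `H` be a harmonic metric, `B = H⁻¹ A0ᴴ H` the adjoint of `A0` and
`w = tr (A0 B) - (4 + 4 + 16)`. The Bochner formula (`bochner`) gives
`Δ w ≥ 4 tr ([A0, B] ^ 2)`, and Henrici's inequality (`henrici`, `pointwise`) gives
`tr ([A0, B] ^ 2) ≥ w ^ 2 / 2` and `w > 0`, as `A0` is not diagonalisable. But there is no positive
function on the plane with `Δ w ≥ 2 w ^ 2` (`keller`).
-/

namespace Pool.Agent.Results.MP_4f0bc7_gt.ConstantOnPlane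

open Matrix
open scoped ContDiff ComplexOrder Topology

/-- The derivative `∂f/∂z = (∂f/∂x - i ∂f/∂y) / 2` of a complex valued function on the plane. -/
noncomputable def dz (f : ℂ → ℂ) (z : ℂ) : ℂ :=
  (fderiv ℝ f z 1 - Complex.I * fderiv ℝ f z Complex.I) / 2

/-- The derivative of `f` with respect to the conjugate variable,
`(∂f/∂x + i ∂f/∂y) / 2`. -/
noncomputable def dzbar (f : ℂ → ℂ) (z : ℂ) : ℂ :=
  (fderiv ℝ f z 1 + Complex.I * fderiv ℝ f z Complex.I) / 2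

/-- `∂/∂z` of a matrix valued function, entry by entry. -/
noncomputable def mdz {n : ℕ} (M : ℂ → Matrix (Fin n) (Fin n) ℂ) (z : ℂ) :
    Matrix (Fin n) (Fin n) ℂ :=
  Matrix.of fun i j => dz (fun w => M w i j) z

/-- The conjugate derivative of a matrix valued function, entry by entry. -/
noncomputable def mdzbar {n : ℕ} (M : ℂ → Matrix (Fin n) (Fin n) ℂ) (z : ℂ) :
    Matrix (Fin n) (Fin n) ℂ :=
  Matrix.of fun i j => dzbar (fun w => M w i j) z

/-- `H` is a harmonic metric of the Higgs bundle `(O^n, A dz)` on the plane, written as a Gram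
matrix in the holomorphic frame: `h(u, v) = v* H u`. It is smooth and positive definite, and it
solves the Hitchin equation. The Chern connection is `d + H⁻¹ ∂H`, its curvature is
`- ∂_zbar (H⁻¹ ∂_z H) dz ∧ dzbar`, the adjoint of `A` is `H⁻¹ Aᴴ H`, and
`[θ, θ*] = (A A* - A* A) dz ∧ dzbar`, so the equation `F + [θ, θ*] = 0` is the equation `eq`. -/
structure IsHarmonic {n : ℕ} (A H : ℂ → Matrix (Fin n) (Fin n) ℂ) : Prop where
  smooth : ∀ i j, ContDiff ℝ ∞ (fun z => H z i j)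
  posDef : ∀ z, (H z).PosDef
  eq : ∀ z, mdzbar (fun w => (H w)⁻¹ * mdz H w) z =
    A z * ((H z)⁻¹ * (A z)ᴴ * H z) - ((H z)⁻¹ * (A z)ᴴ * H z) * A z

/-- The Higgs field of the Hitchin section. On the plane (or any plane domain) with coordinate `z`
the bundle is trivialised by the frame `dz ^ ((n + 1 - 2 i) / 2)`, `i = 1, …, n`, and
`θ(q) = higgs n q z dz`, where `q j` is the coefficient of the holomorphic `j`-differential
`q_j = q j z dz ^ j`: the entries are `1` on the subdiagonal, `q j z` on the `(j - 1)`-st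
superdiagonal for `j = 2, …, n`, and `0` elsewhere. -/
def higgs (n : ℕ) (q : ℕ → ℂ → ℂ) (z : ℂ) : Matrix (Fin n) (Fin n) ℂ :=
  Matrix.of fun i j =>
    if (i : ℕ) = j + 1 then 1 else if (i : ℕ) < j then q ((j : ℕ) - i + 1) z else 0

/-! ### calculus -/

theorem dz_mul {f g : ℂ → ℂ} {z : ℂ} (hf : DifferentiableAt ℝ f z) (hg : DifferentiableAt ℝ g z) :
    dz (fun w => f w * g w) z = dz f z * g z + f z * dz g z := by
  unfold dz
  rw [fderiv_fun_mul hf hg]
  simp only [_root_.add_apply, _root_.smul_apply, smul_eq_mul]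
  ring

theorem dzbar_mul {f g : ℂ → ℂ} {z : ℂ} (hf : DifferentiableAt ℝ f z)
    (hg : DifferentiableAt ℝ g z) :
    dzbar (fun w => f w * g w) z = dzbar f z * g z + f z * dzbar g z := by
  unfold dzbar
  rw [fderiv_fun_mul hf hg]
  simp only [_root_.add_apply, _root_.smul_apply, smul_eq_mul]
  ring

theorem dz_sum {ι : Type*} (s : Finset ι) {f : ι → ℂ → ℂ} {z : ℂ}
    (hf : ∀ i ∈ s, DifferentiableAt ℝ (f i) z) :
    dz (fun w => ∑ i ∈ s, f i w) z = ∑ i ∈ s, dz (f i) z := by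
  unfold dz
  rw [fderiv_fun_sum hf]
  simp only [_root_.sum_apply]
  rw [Finset.mul_sum, ← Finset.sum_sub_distrib, Finset.sum_div]

theorem dzbar_sum {ι : Type*} (s : Finset ι) {f : ι → ℂ → ℂ} {z : ℂ}
    (hf : ∀ i ∈ s, DifferentiableAt ℝ (f i) z) :
    dzbar (fun w => ∑ i ∈ s, f i w) z = ∑ i ∈ s, dzbar (f i) z := by
  unfold dzbar
  rw [fderiv_fun_sum hf]
  simp only [_root_.sum_apply]
  rw [Finset.mul_sum, ← Finset.sum_add_distrib, Finset.sum_div]

theorem dz_sub {f g : ℂ → ℂ} {z : ℂ} (hf : DifferentiableAt ℝ f z) (hg : DifferentiableAt ℝ g z) :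
    dz (fun w => f w - g w) z = dz f z - dz g z := by
  unfold dz
  rw [fderiv_fun_sub hf hg]
  simp only [_root_.sub_apply]
  ring

theorem dzbar_sub {f g : ℂ → ℂ} {z : ℂ} (hf : DifferentiableAt ℝ f z)
    (hg : DifferentiableAt ℝ g z) :
    dzbar (fun w => f w - g w) z = dzbar f z - dzbar g z := by
  unfold dzbar
  rw [fderiv_fun_sub hf hg]
  simp only [_root_.sub_apply]
  ring

theorem dz_const (c z : ℂ) : dz (fun _ => c) z = 0 := by
  unfold dz; simp

theorem dzbar_const (c z : ℂ) : dzbar (fun _ => c) z = 0 := by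
  unfold dzbar; simp

theorem fderiv_star (f : ℂ → ℂ) (z v : ℂ) :
    fderiv ℝ (fun w => star (f w)) z v = star (fderiv ℝ f z v) := by
  have h := Complex.conjCLE.comp_fderiv (f := f) (x := z)
  have h2 : (fun w => star (f w)) = Complex.conjCLE ∘ f := by
    funext w; simp
  rw [h2, h]
  simp

theorem dzbar_star (f : ℂ → ℂ) (z : ℂ) : dzbar (fun w => star (f w)) z = star (dz f z) := by
  unfold dzbar dz
  rw [fderiv_star, fderiv_star]
  simp only [Complex.star_def, map_div₀, map_sub, map_mul, Complex.conj_I, map_ofNat]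
  ring

section mat
variable {n : ℕ}

/-- entrywise smoothness -/
def Sm (M : ℂ → Matrix (Fin n) (Fin n) ℂ) : Prop := ∀ i j, ContDiff ℝ ∞ (fun z => M z i j)

theorem Sm.diff {M : ℂ → Matrix (Fin n) (Fin n) ℂ} (h : Sm M) (i j : Fin n) (z : ℂ) :
    DifferentiableAt ℝ (fun w => M w i j) z :=
  ((h i j).differentiable (by simp)).differentiableAt

theorem Sm.const (A : Matrix (Fin n) (Fin n) ℂ) : Sm (fun _ => A) := fun _ _ => contDiff_const

theorem Sm.mul {M N : ℂ → Matrix (Fin n) (Fin n) ℂ} (hM : Sm M) (hN : Sm N) :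
    Sm (fun z => M z * N z) := by
  intro i j
  simp only [Matrix.mul_apply]
  exact ContDiff.sum fun k _ => (hM i k).mul (hN k j)

theorem Sm.sub {M N : ℂ → Matrix (Fin n) (Fin n) ℂ} (hM : Sm M) (hN : Sm N) :
    Sm (fun z => M z - N z) := by
  intro i j
  simp only [Matrix.sub_apply]
  exact (hM i j).sub (hN i j)

theorem Sm.trace {M : ℂ → Matrix (Fin n) (Fin n) ℂ} (hM : Sm M) :
    ContDiff ℝ ∞ (fun z => (M z).trace) := by
  simp only [Matrix.trace, Matrix.diag]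
  exact ContDiff.sum fun k _ => hM k k

theorem Sm.det {M : ℂ → Matrix (Fin n) (Fin n) ℂ} (hM : Sm M) :
    ContDiff ℝ ∞ (fun z => (M z).det) := by
  simp only [Matrix.det_apply]
  refine ContDiff.sum fun σ _ => ?_
  refine ContDiff.const_smul _ ?_
  exact contDiff_prod fun i _ => hM _ _

theorem Sm.adjugate {M : ℂ → Matrix (Fin n) (Fin n) ℂ} (hM : Sm M) :
    Sm (fun z => (M z).adjugate) := by
  intro i j
  simp only [Matrix.adjugate_apply]
  refine Sm.det (M := fun z => (M z).updateRow j (Pi.single i 1)) ?_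
  intro k l
  by_cases h : k = j
  · subst h
    simp only [Matrix.updateRow_self]
    exact contDiff_const
  · simp only [Matrix.updateRow_ne h]
    exact hM k l

theorem Sm.inv {M : ℂ → Matrix (Fin n) (Fin n) ℂ} (hM : Sm M) (h : ∀ z, (M z).det ≠ 0) :
    Sm (fun z => (M z)⁻¹) := by
  intro i j
  have h1 : (fun z => (M z)⁻¹ i j) = fun z => ((M z).det)⁻¹ * (M z).adjugate i j := by
    funext z
    rw [Matrix.inv_def, Ring.inverse_eq_inv', Matrix.smul_apply, smul_eq_mul]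
  rw [h1]
  exact (hM.det.inv h).mul (hM.adjugate i j)

theorem contDiff_fderiv_apply {f : ℂ → ℂ} (hf : ContDiff ℝ ∞ f) (v : ℂ) :
    ContDiff ℝ ∞ (fun z => fderiv ℝ f z v) :=
  (hf.fderiv_right (m := ∞) (by simp)).clm_apply contDiff_const

theorem contDiff_dz {f : ℂ → ℂ} (hf : ContDiff ℝ ∞ f) : ContDiff ℝ ∞ (dz f) := by
  unfold dz
  exact ((contDiff_fderiv_apply hf 1).sub
    (contDiff_const.mul (contDiff_fderiv_apply hf Complex.I))).div_const _

theorem Sm.mdz {M : ℂ → Matrix (Fin n) (Fin n) ℂ} (hM : Sm M) : Sm (mdz M) := by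
  intro i j
  exact contDiff_dz (hM i j)

theorem mdz_mul {M N : ℂ → Matrix (Fin n) (Fin n) ℂ} (hM : Sm M) (hN : Sm N) (z : ℂ) :
    mdz (fun w => M w * N w) z =
      mdz M z * N z + M z * mdz N z := by
  ext i j
  simp only [mdz, Matrix.of_apply, Matrix.add_apply, Matrix.mul_apply]
  rw [dz_sum _ (f := fun k w => M w i k * N w k j)
    fun k _ => (hM.diff i k z).fun_mul (hN.diff k j z), ← Finset.sum_add_distrib]
  exact Finset.sum_congr rfl fun k _ => dz_mul (hM.diff i k z) (hN.diff k j z)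

theorem mdzbar_mul {M N : ℂ → Matrix (Fin n) (Fin n) ℂ} (hM : Sm M) (hN : Sm N) (z : ℂ) :
    mdzbar (fun w => M w * N w) z = mdzbar M z * N z + M z * mdzbar N z := by
  ext i j
  simp only [mdzbar, Matrix.of_apply, Matrix.add_apply, Matrix.mul_apply]
  rw [dzbar_sum _ (f := fun k w => M w i k * N w k j)
    fun k _ => (hM.diff i k z).fun_mul (hN.diff k j z), ← Finset.sum_add_distrib]
  exact Finset.sum_congr rfl fun k _ => dzbar_mul (hM.diff i k z) (hN.diff k j z)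

theorem mdz_const (A : Matrix (Fin n) (Fin n) ℂ) (z : ℂ) :
    mdz (fun _ => A) z = 0 := by
  ext i j
  simp only [mdz, Matrix.of_apply, Matrix.zero_apply]
  exact dz_const _ _

theorem mdzbar_const (A : Matrix (Fin n) (Fin n) ℂ) (z : ℂ) : mdzbar (fun _ => A) z = 0 := by
  ext i j
  simp only [mdzbar, Matrix.of_apply, Matrix.zero_apply]
  exact dzbar_const _ _

theorem dz_trace {M : ℂ → Matrix (Fin n) (Fin n) ℂ} (hM : Sm M) (z : ℂ) :
    dz (fun w => (M w).trace) z = (mdz M z).trace := by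
  simp only [Matrix.trace, Matrix.diag, mdz, Matrix.of_apply]
  exact dz_sum _ fun k _ => hM.diff k k z

theorem dzbar_trace {M : ℂ → Matrix (Fin n) (Fin n) ℂ} (hM : Sm M) (z : ℂ) :
    dzbar (fun w => (M w).trace) z = (mdzbar M z).trace := by
  simp only [Matrix.trace, Matrix.diag, mdzbar, Matrix.of_apply]
  exact dzbar_sum _ fun k _ => hM.diff k k z

theorem mdz_sub {M N : ℂ → Matrix (Fin n) (Fin n) ℂ} (hM : Sm M) (hN : Sm N) (z : ℂ) :
    mdz (fun w => M w - N w) z = mdz M z - mdz N z := by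
  ext i j
  simp only [mdz, Matrix.of_apply, Matrix.sub_apply]
  exact dz_sub (hM.diff i j z) (hN.diff i j z)

theorem mdzbar_sub {M N : ℂ → Matrix (Fin n) (Fin n) ℂ} (hM : Sm M) (hN : Sm N) (z : ℂ) :
    mdzbar (fun w => M w - N w) z = mdzbar M z - mdzbar N z := by
  ext i j
  simp only [mdzbar, Matrix.of_apply, Matrix.sub_apply]
  exact dzbar_sub (hM.diff i j z) (hN.diff i j z)

theorem mdz_inv {M : ℂ → Matrix (Fin n) (Fin n) ℂ} (hM : Sm M) (h : ∀ z, (M z).det ≠ 0) (z : ℂ) :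
    mdz (fun w => (M w)⁻¹) z = -((M z)⁻¹ * mdz M z * (M z)⁻¹) := by
  have hu : IsUnit (M z).det := isUnit_iff_ne_zero.mpr (h z)
  have h1 : (fun w => M w * (M w)⁻¹) = fun _ => (1 : Matrix (Fin n) (Fin n) ℂ) := by
    funext w
    exact Matrix.mul_nonsing_inv _ (isUnit_iff_ne_zero.mpr (h w))
  have h2 := mdz_mul hM (hM.inv h) z
  rw [h1, mdz_const] at h2
  have h3 : M z * mdz (fun w => (M w)⁻¹) z = -(mdz M z * (M z)⁻¹) :=
    (neg_eq_of_add_eq_zero_right h2.symm).symm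
  calc mdz (fun w => (M w)⁻¹) z
      = (M z)⁻¹ * (M z * mdz (fun w => (M w)⁻¹) z) := by
        rw [← Matrix.mul_assoc, Matrix.nonsing_inv_mul _ hu, Matrix.one_mul]
    _ = _ := by rw [h3, Matrix.mul_neg, Matrix.mul_assoc]

theorem mdzbar_inv {M : ℂ → Matrix (Fin n) (Fin n) ℂ} (hM : Sm M) (h : ∀ z, (M z).det ≠ 0)
    (z : ℂ) :
    mdzbar (fun w => (M w)⁻¹) z = -((M z)⁻¹ * mdzbar M z * (M z)⁻¹) := by
  have hu : IsUnit (M z).det := isUnit_iff_ne_zero.mpr (h z)
  have h1 : (fun w => M w * (M w)⁻¹) = fun _ => (1 : Matrix (Fin n) (Fin n) ℂ) := by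
    funext w
    exact Matrix.mul_nonsing_inv _ (isUnit_iff_ne_zero.mpr (h w))
  have h2 := mdzbar_mul hM (hM.inv h) z
  rw [h1, mdzbar_const] at h2
  have h3 : M z * mdzbar (fun w => (M w)⁻¹) z = -(mdzbar M z * (M z)⁻¹) :=
    (neg_eq_of_add_eq_zero_right h2.symm).symm
  calc mdzbar (fun w => (M w)⁻¹) z
      = (M z)⁻¹ * (M z * mdzbar (fun w => (M w)⁻¹) z) := by
        rw [← Matrix.mul_assoc, Matrix.nonsing_inv_mul _ hu, Matrix.one_mul]
    _ = _ := by rw [h3, Matrix.mul_neg, Matrix.mul_assoc]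

theorem mdzbar_herm {M : ℂ → Matrix (Fin n) (Fin n) ℂ} (h : ∀ z, (M z)ᴴ = M z) (z : ℂ) :
    mdzbar M z = (mdz M z)ᴴ := by
  ext i j
  simp only [mdzbar, mdz, Matrix.of_apply, Matrix.conjTranspose_apply]
  rw [← dzbar_star]
  congr 1
  funext w
  conv_lhs => rw [← h w]
  rfl

end mat

section
variable {n : ℕ} {A : Matrix (Fin n) (Fin n) ℂ} {H : ℂ → Matrix (Fin n) (Fin n) ℂ}

theorem IsHarmonic.det_ne {A : ℂ → Matrix (Fin n) (Fin n) ℂ} (h : IsHarmonic A H) (z : ℂ) :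
    (H z).det ≠ 0 := (h.posDef z).det_pos.ne'

theorem herm_inv {M : Matrix (Fin n) (Fin n) ℂ} (h : Mᴴ = M) : (M⁻¹)ᴴ = M⁻¹ := by
  rw [Matrix.conjTranspose_nonsing_inv, h]

theorem mat_id1 (K X A : Matrix (Fin n) (Fin n) ℂ) (hu : IsUnit K.det) :
    K⁻¹ * A * K * (K⁻¹ * X) = K⁻¹ * A * X := by
  rw [← Matrix.mul_assoc, Matrix.mul_assoc _ K K⁻¹, Matrix.mul_nonsing_inv _ hu, Matrix.mul_one]

theorem mat_id2 (K X A : Matrix (Fin n) (Fin n) ℂ) (hu : IsUnit K.det) :
    K⁻¹ * (A * (X * K⁻¹)) * K = K⁻¹ * A * X := by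
  have h : K⁻¹ * (A * (X * K⁻¹)) * K = K⁻¹ * A * X * (K⁻¹ * K) := by
    simp only [Matrix.mul_assoc]
  rw [h, Matrix.nonsing_inv_mul _ hu, Matrix.mul_one]

theorem mat_id3 (K X A : Matrix (Fin n) (Fin n) ℂ) :
    K⁻¹ * (X * K⁻¹ * A) * K = K⁻¹ * X * (K⁻¹ * A * K) := by
  simp only [Matrix.mul_assoc]

theorem mdz_B (hS : Sm H) (hd : ∀ z, (H z).det ≠ 0) (z : ℂ) :
    mdz (fun w => (H w)⁻¹ * Aᴴ * H w) z =
      ((H z)⁻¹ * Aᴴ * H z) * ((H z)⁻¹ * mdz H z) - ((H z)⁻¹ * mdz H z) * ((H z)⁻¹ * Aᴴ * H z) := by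
  have hu : IsUnit (H z).det := isUnit_iff_ne_zero.mpr (hd z)
  rw [mdz_mul ((hS.inv hd).mul (Sm.const Aᴴ)) hS z, mdz_mul (hS.inv hd) (Sm.const Aᴴ) z,
    mdz_inv hS hd, mdz_const]
  have e1 : (H z)⁻¹ * Aᴴ * H z * ((H z)⁻¹ * mdz H z) = (H z)⁻¹ * Aᴴ * mdz H z := by
    rw [← Matrix.mul_assoc, Matrix.mul_assoc _ (H z) (H z)⁻¹, Matrix.mul_nonsing_inv _ hu,
      Matrix.mul_one]
  rw [e1]
  simp only [Matrix.mul_zero, add_zero, Matrix.neg_mul, Matrix.mul_assoc]
  abel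

theorem mdzbar_B (hS : Sm H) (hd : ∀ z, (H z).det ≠ 0) (z : ℂ) :
    mdzbar (fun w => (H w)⁻¹ * Aᴴ * H w) z =
      ((H z)⁻¹ * Aᴴ * H z) * ((H z)⁻¹ * mdzbar H z) -
        ((H z)⁻¹ * mdzbar H z) * ((H z)⁻¹ * Aᴴ * H z) := by
  have hu : IsUnit (H z).det := isUnit_iff_ne_zero.mpr (hd z)
  rw [mdzbar_mul ((hS.inv hd).mul (Sm.const Aᴴ)) hS z, mdzbar_mul (hS.inv hd) (Sm.const Aᴴ) z,
    mdzbar_inv hS hd, mdzbar_const]
  have e1 : (H z)⁻¹ * Aᴴ * H z * ((H z)⁻¹ * mdzbar H z) = (H z)⁻¹ * Aᴴ * mdzbar H z := by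
    rw [← Matrix.mul_assoc, Matrix.mul_assoc _ (H z) (H z)⁻¹, Matrix.mul_nonsing_inv _ hu,
      Matrix.mul_one]
  rw [e1]
  simp only [Matrix.mul_zero, add_zero, Matrix.neg_mul, Matrix.mul_assoc]
  abel

theorem trace_id (A B R G C : Matrix (Fin n) (Fin n) ℂ) (hR : R = A * B - B * A) :
    (A * (C * G + B * R - (R * B + G * C))).trace =
      (R * R).trace + ((G * A - A * G) * C).trace := by
  have e1 : (A * (C * G)).trace = (G * A * C).trace := by
    rw [← Matrix.mul_assoc, Matrix.trace_mul_comm, ← Matrix.mul_assoc]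
  have e2 : (A * (G * C)).trace = (A * G * C).trace := by rw [Matrix.mul_assoc]
  have e3 : (A * (R * B)).trace = (B * A * R).trace := by
    rw [← Matrix.mul_assoc, Matrix.trace_mul_comm, ← Matrix.mul_assoc]
  have e4 : (A * (B * R)).trace = (A * B * R).trace := by rw [Matrix.mul_assoc]
  have e5 : (R * R).trace = (A * B * R).trace - (B * A * R).trace := by
    conv_lhs => rw [show R * R = (A * B - B * A) * R by rw [← hR]]
    rw [Matrix.sub_mul, Matrix.trace_sub]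
  rw [e5, Matrix.sub_mul, Matrix.trace_sub, Matrix.mul_sub, Matrix.mul_add, Matrix.mul_add,
    Matrix.trace_sub, Matrix.trace_add, Matrix.trace_add, e1, e2, e3, e4]
  ring

/-- Bochner formula for the squared norm of a constant Higgs field. -/
theorem bochner (h : IsHarmonic (fun _ => A) H) (z : ℂ) :
    dzbar (dz (fun w => (A * ((H w)⁻¹ * Aᴴ * H w)).trace)) z =
      ((A * ((H z)⁻¹ * Aᴴ * H z) - ((H z)⁻¹ * Aᴴ * H z) * A) *
        (A * ((H z)⁻¹ * Aᴴ * H z) - ((H z)⁻¹ * Aᴴ * H z) * A)).trace +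
      ((((H z)⁻¹ * mdz H z) * A - A * ((H z)⁻¹ * mdz H z)) *
        ((H z)⁻¹ * (((H z)⁻¹ * mdz H z) * A - A * ((H z)⁻¹ * mdz H z))ᴴ * H z)).trace := by
  have hS : Sm H := h.smooth
  have hd := h.det_ne
  have hu : IsUnit (H z).det := isUnit_iff_ne_zero.mpr (hd z)
  have hB : Sm (fun w => (H w)⁻¹ * Aᴴ * H w) := ((hS.inv hd).mul (Sm.const Aᴴ)).mul hS
  have hG : Sm (fun w => (H w)⁻¹ * mdz H w) := (hS.inv hd).mul hS.mdz
  have e1 : dz (fun w => (A * ((H w)⁻¹ * Aᴴ * H w)).trace) = fun w =>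
      (A * (((H w)⁻¹ * Aᴴ * H w) * ((H w)⁻¹ * mdz H w) -
        ((H w)⁻¹ * mdz H w) * ((H w)⁻¹ * Aᴴ * H w))).trace := by
    funext w
    rw [dz_trace (M := fun w => A * ((H w)⁻¹ * Aᴴ * H w)) ((Sm.const A).mul hB) w,
      mdz_mul (Sm.const A) hB w, mdz_const, mdz_B hS hd, Matrix.zero_mul, zero_add]
  rw [e1, dzbar_trace (M := fun w => A * (((H w)⁻¹ * Aᴴ * H w) * ((H w)⁻¹ * mdz H w) -
        ((H w)⁻¹ * mdz H w) * ((H w)⁻¹ * Aᴴ * H w)))
      ((Sm.const A).mul ((hB.mul hG).sub (hG.mul hB))) z,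
    mdzbar_mul (Sm.const A) ((hB.mul hG).sub (hG.mul hB)) z, mdzbar_const, Matrix.zero_mul,
    zero_add, mdzbar_sub (hB.mul hG) (hG.mul hB) z, mdzbar_mul hB hG z, mdzbar_mul hG hB z,
    mdzbar_B hS hd z, h.eq z]
  obtain ⟨B, hBz⟩ : ∃ B, B = (H z)⁻¹ * Aᴴ * H z := ⟨_, rfl⟩
  obtain ⟨G, hGz⟩ : ∃ G, G = (H z)⁻¹ * mdz H z := ⟨_, rfl⟩
  have hHz : (H z)ᴴ = H z := (h.posDef z).isHermitian
  have hC : (H z)⁻¹ * (G * A - A * G)ᴴ * H z =
      B * ((H z)⁻¹ * mdzbar H z) - ((H z)⁻¹ * mdzbar H z) * B := by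
    have hb : mdzbar H z = (mdz H z)ᴴ := mdzbar_herm (fun w => (h.posDef w).isHermitian) z
    have hg : Gᴴ = mdzbar H z * (H z)⁻¹ := by
      rw [hGz, Matrix.conjTranspose_mul, herm_inv hHz, hb]
    rw [Matrix.conjTranspose_sub, Matrix.conjTranspose_mul, Matrix.conjTranspose_mul, hg, hBz]
    rw [mat_id1 _ _ _ hu, Matrix.mul_sub, Matrix.sub_mul, mat_id2 _ _ _ hu, mat_id3]
  simp only [← hBz, ← hGz, hC]
  rw [← trace_id A B (A * B - B * A) G _ rfl]

end

/-- Cholesky factorisation: an orthonormal basis adapted to the standard flag. -/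
theorem chol {n : ℕ} {H : Matrix (Fin n) (Fin n) ℂ} (h : H.PosDef) :
    ∃ S : Matrix (Fin n) (Fin n) ℂ, (∀ i j, j < i → S i j = 0) ∧ Sᴴ * H * S = 1 := by
  have hD : LDL.diag h = LDL.lowerInv h * H * (LDL.lowerInv h)ᴴ := LDL.diag_eq_lowerInv_conj h
  have hpos : ∀ i, (0 : ℂ) < LDL.diagEntries h i := by
    intro i
    have h1 : (LDL.diag h).PosDef := by
      rw [hD]
      have hinj : Function.Injective (LDL.lowerInv h).vecMul := by
        apply Matrix.vecMul_injective_of_isUnit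
        exact isUnit_of_invertible _
      exact h.mul_mul_conjTranspose_same hinj
    have h2 := h1.diag_pos (i := i)
    simpa [LDL.diag] using h2
  refine ⟨(LDL.lowerInv h)ᴴ * Matrix.diagonal (fun i => (((Real.sqrt (LDL.diagEntries h i).re)⁻¹ : ℝ) : ℂ)), ?_, ?_⟩
  · intro i j hij
    rw [Matrix.mul_diagonal, Matrix.conjTranspose_apply, LDL.lowerInv_triangular h hij]
    simp
  · rw [Matrix.conjTranspose_mul, Matrix.conjTranspose_conjTranspose, Matrix.diagonal_conjTranspose]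
    have h3 : ∀ D E : Matrix (Fin n) (Fin n) ℂ,
        D * LDL.lowerInv h * H * ((LDL.lowerInv h)ᴴ * E) = D * LDL.diag h * E := by
      intro D E
      rw [hD]
      simp only [Matrix.mul_assoc]
    rw [h3, LDL.diag, Matrix.diagonal_mul_diagonal, Matrix.diagonal_mul_diagonal]
    have h4 : (1 : Matrix (Fin n) (Fin n) ℂ) = Matrix.diagonal (fun _ => 1) := Matrix.diagonal_one.symm
    rw [h4]
    congr 1
    funext i
    have h5 := hpos i
    rw [Complex.lt_def] at h5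
    have h6 : LDL.diagEntries h i = (((LDL.diagEntries h i).re : ℝ) : ℂ) := by
      apply Complex.ext
      · simp
      · simpa using h5.2.symm
    have h7 : 0 < (LDL.diagEntries h i).re := by simpa using h5.1
    have h8 : Real.sqrt (LDL.diagEntries h i).re ≠ 0 := (Real.sqrt_pos.mpr h7).ne'
    have h9 := Real.mul_self_sqrt h7.le
    rw [h6]
    simp only [Pi.star_apply, Complex.star_def, Complex.conj_ofReal, Complex.ofReal_re]
    rw [← Complex.ofReal_mul, ← Complex.ofReal_mul, ← Complex.ofReal_one]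
    congr 1
    field_simp
    linarith [sq (Real.sqrt (LDL.diagEntries h i).re)]

/-- Henrici's inequality for upper triangular matrices of size three. -/
theorem henrici (T : Matrix (Fin 3) (Fin 3) ℂ) (h10 : T 1 0 = 0) (h20 : T 2 0 = 0)
    (h21 : T 2 1 = 0) :
    (1 / 2) * ((T * Tᴴ).trace.re -
      (Complex.normSq (T 0 0) + Complex.normSq (T 1 1) + Complex.normSq (T 2 2))) ^ 2 ≤
    ((T * Tᴴ - Tᴴ * T) * (T * Tᴴ - Tᴴ * T)).trace.re ∧
    (T * Tᴴ).trace.re - (Complex.normSq (T 0 0) + Complex.normSq (T 1 1) + Complex.normSq (T 2 2)) =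
      Complex.normSq (T 0 1) + Complex.normSq (T 0 2) + Complex.normSq (T 1 2) := by
  have e1 : (T * Tᴴ).trace.re - (Complex.normSq (T 0 0) + Complex.normSq (T 1 1) +
      Complex.normSq (T 2 2)) =
      Complex.normSq (T 0 1) + Complex.normSq (T 0 2) + Complex.normSq (T 1 2) := by
    simp only [Matrix.trace, Matrix.diag, Matrix.mul_apply, Matrix.conjTranspose_apply,
      Fin.sum_univ_three, h10, h20, h21, Complex.star_def, Complex.mul_conj, Complex.add_re,
      Complex.ofReal_re, Complex.normSq_zero]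
    ring
  refine ⟨?_, e1⟩
  rw [e1]
  obtain ⟨K, hK⟩ : ∃ K, K = T * Tᴴ - Tᴴ * T := ⟨_, rfl⟩
  rw [← hK]
  have hH : ∀ i j, K j i = star (K i j) := by
    intro i j
    have : Kᴴ = K := by
      rw [hK]
      simp only [Matrix.conjTranspose_sub, Matrix.conjTranspose_mul,
        Matrix.conjTranspose_conjTranspose]
    conv_lhs => rw [← this]
    rfl
  have e2 : (K * K).trace.re = ∑ i, ∑ j, Complex.normSq (K i j) := by
    simp only [Matrix.trace, Matrix.diag, Matrix.mul_apply, Complex.re_sum]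
    refine Finset.sum_congr rfl fun i _ => Finset.sum_congr rfl fun j _ => ?_
    rw [hH i j, Complex.star_def, Complex.mul_conj, Complex.ofReal_re]
  have e3 : K 0 0 = ((Complex.normSq (T 0 1) + Complex.normSq (T 0 2) : ℝ) : ℂ) := by
    rw [hK]
    simp only [Matrix.sub_apply, Matrix.mul_apply, Matrix.conjTranspose_apply,
      Fin.sum_univ_three, h10, h20, h21, Complex.star_def, Complex.mul_conj]
    rw [mul_comm ((starRingEnd ℂ) (T 0 0)) (T 0 0), Complex.mul_conj]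
    push_cast
    simp
    ring
  have e4 : K 2 2 = ((-(Complex.normSq (T 0 2) + Complex.normSq (T 1 2)) : ℝ) : ℂ) := by
    rw [hK]
    simp only [Matrix.sub_apply, Matrix.mul_apply, Matrix.conjTranspose_apply,
      Fin.sum_univ_three, h10, h20, h21, Complex.star_def, Complex.mul_conj]
    rw [mul_comm ((starRingEnd ℂ) (T 0 2)) (T 0 2), mul_comm ((starRingEnd ℂ) (T 1 2)) (T 1 2),
      mul_comm ((starRingEnd ℂ) (T 2 2)) (T 2 2), Complex.mul_conj, Complex.mul_conj,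
      Complex.mul_conj]
    push_cast
    simp
  have e5 : Complex.normSq (K 0 0) + Complex.normSq (K 2 2) ≤ (K * K).trace.re := by
    rw [e2]
    simp only [Fin.sum_univ_three]
    have := fun i j => Complex.normSq_nonneg (K i j)
    linarith [this 0 1, this 0 2, this 1 0, this 1 1, this 1 2, this 2 0, this 2 1]
  rw [e3, e4, Complex.normSq_ofReal, Complex.normSq_ofReal] at e5
  have p1 := Complex.normSq_nonneg (T 0 1)
  have p2 := Complex.normSq_nonneg (T 0 2)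
  have p3 := Complex.normSq_nonneg (T 1 2)
  nlinarith [sq_nonneg (Complex.normSq (T 0 1) - Complex.normSq (T 1 2)), mul_nonneg p1 p2,
    mul_nonneg p1 p3, mul_nonneg p2 p3]

/-- The matrix with characteristic polynomial `(X - 2)^2 (X + 4)` in the Hitchin section. -/
def A0 : Matrix (Fin 3) (Fin 3) ℂ := !![0, 6, -16; 1, 0, 6; 0, 1, 0]

/-- an upper triangular conjugate of `A0` -/
def A1 : Matrix (Fin 3) (Fin 3) ℂ := !![2, 1, 0; 0, 2, 0; 0, 0, -4]

/-- the change of basis -/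
def M1 : Matrix (Fin 3) (Fin 3) ℂ := !![-2, 4, 10; 2, 1, -4; 1, 0, 1]

theorem A0_mul : A0 * M1 = M1 * A1 := by
  unfold A0 M1 A1
  ext i j
  fin_cases i <;> fin_cases j <;>
    simp [Matrix.mul_apply, Fin.sum_univ_three] <;> norm_num

theorem M1_det : M1.det ≠ 0 := by
  unfold M1
  rw [Matrix.det_fin_three]
  simp
  norm_num

theorem conj_adj {n : ℕ} {H S : Matrix (Fin n) (Fin n) ℂ} (hH : Hᴴ = H) (h1 : Sᴴ * H * S = 1) :
    (∀ D, Sᴴ * H * (H⁻¹ * Dᴴ * H) * S = (Sᴴ * H * D * S)ᴴ) ∧ S * (Sᴴ * H) = 1 := by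
  have h2 : S * (Sᴴ * H) = 1 := mul_eq_one_comm.mp h1
  refine ⟨?_, h2⟩
  intro D
  have h3 : (S * Sᴴ) * H = 1 := by rw [Matrix.mul_assoc]; exact h2
  have h4 : H⁻¹ = S * Sᴴ := Matrix.inv_eq_left_inv h3
  rw [h4]
  have e1 : Sᴴ * H * (S * Sᴴ * Dᴴ * H) * S = (Sᴴ * H * S) * (Sᴴ * Dᴴ * H * S) := by
    simp only [Matrix.mul_assoc]
  rw [e1, h1, Matrix.one_mul]
  simp only [Matrix.conjTranspose_mul, Matrix.conjTranspose_conjTranspose, hH, Matrix.mul_assoc]

theorem trace_conj {n : ℕ} {P S : Matrix (Fin n) (Fin n) ℂ} (h : S * P = 1)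
    (X : Matrix (Fin n) (Fin n) ℂ) : (P * X * S).trace = X.trace := by
  rw [Matrix.trace_mul_comm, ← Matrix.mul_assoc, h, Matrix.one_mul]

theorem mul_conj' {n : ℕ} {P S : Matrix (Fin n) (Fin n) ℂ} (h : S * P = 1)
    (X Y : Matrix (Fin n) (Fin n) ℂ) : P * (X * Y) * S = (P * X * S) * (P * Y * S) := by
  have : (P * X * S) * (P * Y * S) = P * X * (S * P) * Y * S := by
    simp only [Matrix.mul_assoc]
  rw [this, h, Matrix.mul_one]
  simp only [Matrix.mul_assoc]

theorem trace_self {n : ℕ} (D : Matrix (Fin n) (Fin n) ℂ) :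
    (D * Dᴴ).trace = ((∑ i, ∑ j, Complex.normSq (D i j) : ℝ) : ℂ) := by
  simp only [Matrix.trace, Matrix.diag, Matrix.mul_apply, Matrix.conjTranspose_apply,
    Complex.star_def, Complex.mul_conj]
  push_cast
  rfl

/-- The pointwise inequalities. -/
theorem pointwise {H : Matrix (Fin 3) (Fin 3) ℂ} (hp : H.PosDef) :
    (1 / 2) * ((A0 * (H⁻¹ * A0ᴴ * H)).trace.re - 24) ^ 2 ≤
      ((A0 * (H⁻¹ * A0ᴴ * H) - H⁻¹ * A0ᴴ * H * A0) *
        (A0 * (H⁻¹ * A0ᴴ * H) - H⁻¹ * A0ᴴ * H * A0)).trace.re ∧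
    24 < (A0 * (H⁻¹ * A0ᴴ * H)).trace.re ∧
    (A0 * (H⁻¹ * A0ᴴ * H)).trace.im = 0 ∧
    ∀ D : Matrix (Fin 3) (Fin 3) ℂ, 0 ≤ (D * (H⁻¹ * Dᴴ * H)).trace.re := by
  have hH : Hᴴ = H := hp.isHermitian
  have hinj : Function.Injective M1.mulVec := by
    apply Matrix.mulVec_injective_of_isUnit
    exact (Matrix.isUnit_iff_isUnit_det _).mpr (isUnit_iff_ne_zero.mpr M1_det)
  have hp1 : (M1ᴴ * H * M1).PosDef := hp.conjTranspose_mul_mul_same hinj
  obtain ⟨S1, htri, hS1⟩ := chol hp1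
  obtain ⟨S, hS⟩ : ∃ S, S = M1 * S1 := ⟨_, rfl⟩
  have h1 : Sᴴ * H * S = 1 := by
    rw [hS, Matrix.conjTranspose_mul, ← hS1]
    simp only [Matrix.mul_assoc]
  obtain ⟨hadj, h2⟩ := conj_adj hH h1
  obtain ⟨P, hP⟩ : ∃ P, P = Sᴴ * H := ⟨_, rfl⟩
  rw [← hP] at h1 h2
  simp only [← hP] at hadj
  obtain ⟨T, hT⟩ : ∃ T, T = P * A0 * S := ⟨_, rfl⟩
  have hB : P * (H⁻¹ * A0ᴴ * H) * S = Tᴴ := by rw [hadj, ← hT]
  have t1 : (A0 * (H⁻¹ * A0ᴴ * H)).trace = (T * Tᴴ).trace := by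
    rw [← trace_conj h2, mul_conj' h2, hB, ← hT]
  have t2 : ((A0 * (H⁻¹ * A0ᴴ * H) - H⁻¹ * A0ᴴ * H * A0) *
        (A0 * (H⁻¹ * A0ᴴ * H) - H⁻¹ * A0ᴴ * H * A0)).trace =
      ((T * Tᴴ - Tᴴ * T) * (T * Tᴴ - Tᴴ * T)).trace := by
    rw [← trace_conj h2, mul_conj' h2]
    have : P * (A0 * (H⁻¹ * A0ᴴ * H) - H⁻¹ * A0ᴴ * H * A0) * S = T * Tᴴ - Tᴴ * T := by
      rw [Matrix.mul_sub, Matrix.sub_mul, mul_conj' h2 A0 (H⁻¹ * A0ᴴ * H),
        mul_conj' h2 (H⁻¹ * A0ᴴ * H) A0, hB, ← hT]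
    rw [this]
  -- triangularity
  have hST : S * T = A0 * S := by
    rw [hT, ← Matrix.mul_assoc, ← Matrix.mul_assoc, h2, Matrix.one_mul]
  have hS1T : S1 * T = A1 * S1 := by
    have e1 : M1 * (S1 * T) = M1 * (A1 * S1) := by
      rw [← Matrix.mul_assoc, ← hS, hST, hS, ← Matrix.mul_assoc, A0_mul, Matrix.mul_assoc]
    have hu : IsUnit M1.det := isUnit_iff_ne_zero.mpr M1_det
    calc S1 * T = M1⁻¹ * (M1 * (S1 * T)) := by
          rw [← Matrix.mul_assoc, Matrix.nonsing_inv_mul _ hu, Matrix.one_mul]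
      _ = M1⁻¹ * (M1 * (A1 * S1)) := by rw [e1]
      _ = A1 * S1 := by rw [← Matrix.mul_assoc, Matrix.nonsing_inv_mul _ hu, Matrix.one_mul]
  have hdet : S1.det ≠ 0 := by
    intro h0
    have h3 := congrArg Matrix.det hS1
    rw [Matrix.det_mul, h0, mul_zero, Matrix.det_one] at h3
    exact zero_ne_one h3
  have z10 := htri 1 0 (by decide)
  have z20 := htri 2 0 (by decide)
  have z21 := htri 2 1 (by decide)
  rw [Matrix.det_fin_three, z10, z20, z21] at hdet
  have hd2 : S1 0 0 * S1 1 1 * S1 2 2 ≠ 0 := by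
    intro h0; apply hdet; rw [h0]; ring
  have n2 : S1 2 2 ≠ 0 := right_ne_zero_of_mul hd2
  have n1 : S1 1 1 ≠ 0 := right_ne_zero_of_mul (left_ne_zero_of_mul hd2)
  have n0 : S1 0 0 ≠ 0 := left_ne_zero_of_mul (left_ne_zero_of_mul hd2)
  have hent : ∀ i j, S1 i 0 * T 0 j + S1 i 1 * T 1 j + S1 i 2 * T 2 j =
      A1 i 0 * S1 0 j + A1 i 1 * S1 1 j + A1 i 2 * S1 2 j := by
    intro i j
    have := congrFun (congrFun hS1T i) j
    simpa [Matrix.mul_apply, Fin.sum_univ_three] using this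
  have a00 : A1 0 0 = 2 := rfl
  have a01 : A1 0 1 = 1 := rfl
  have a02 : A1 0 2 = 0 := rfl
  have a10 : A1 1 0 = 0 := rfl
  have a11 : A1 1 1 = 2 := rfl
  have a12 : A1 1 2 = 0 := rfl
  have a20 : A1 2 0 = 0 := rfl
  have a21 : A1 2 1 = 0 := rfl
  have a22 : A1 2 2 = -4 := rfl
  have x20 : T 2 0 = 0 := by
    have := hent 2 0
    rw [z20, z21, a20, a21, a22, z10] at this
    have h5 : S1 2 2 * T 2 0 = 0 := by linear_combination this
    exact (mul_eq_zero.mp h5).resolve_left n2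
  have x21 : T 2 1 = 0 := by
    have := hent 2 1
    rw [z20, z21, a20, a21, a22] at this
    have h5 : S1 2 2 * T 2 1 = 0 := by linear_combination this
    exact (mul_eq_zero.mp h5).resolve_left n2
  have x22 : T 2 2 = -4 := by
    have := hent 2 2
    rw [z20, z21, a20, a21, a22] at this
    have h5 : S1 2 2 * (T 2 2 + 4) = 0 := by linear_combination this
    have h6 := (mul_eq_zero.mp h5).resolve_left n2
    linear_combination h6
  have x10 : T 1 0 = 0 := by
    have := hent 1 0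
    rw [z10, z20, x20, a10, a11, a12] at this
    have h5 : S1 1 1 * T 1 0 = 0 := by linear_combination this
    exact (mul_eq_zero.mp h5).resolve_left n1
  have x11 : T 1 1 = 2 := by
    have := hent 1 1
    rw [z10, z21, x21, a10, a11, a12] at this
    have h5 : S1 1 1 * (T 1 1 - 2) = 0 := by linear_combination this
    have h6 := (mul_eq_zero.mp h5).resolve_left n1
    linear_combination h6
  have x00 : T 0 0 = 2 := by
    have := hent 0 0
    rw [z10, z20, x10, x20, a00, a01, a02] at this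
    have h5 : S1 0 0 * (T 0 0 - 2) = 0 := by linear_combination this
    have h6 := (mul_eq_zero.mp h5).resolve_left n0
    linear_combination h6
  have x01 : T 0 1 ≠ 0 := by
    intro h0
    have := hent 0 1
    rw [z21, x21, x11, h0, a00, a01, a02] at this
    apply n1
    linear_combination -this
  obtain ⟨hen1, hen2⟩ := henrici T x10 x20 x21
  have s0 : Complex.normSq (T 0 0) + Complex.normSq (T 1 1) + Complex.normSq (T 2 2) = 24 := by
    rw [x00, x11, x22]
    simp [Complex.normSq_apply]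
    norm_num
  rw [s0] at hen1 hen2
  refine ⟨?_, ?_, ?_, ?_⟩
  · rw [t1, t2]; exact hen1
  · rw [t1]
    have p1 := Complex.normSq_pos.mpr x01
    have p2 := Complex.normSq_nonneg (T 0 2)
    have p3 := Complex.normSq_nonneg (T 1 2)
    linarith
  · rw [t1, trace_self, Complex.ofReal_im]
  · intro D
    rw [← trace_conj h2, mul_conj' h2, hadj, trace_self, Complex.ofReal_re]
    exact Finset.sum_nonneg fun i _ => Finset.sum_nonneg fun j _ => Complex.normSq_nonneg _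

theorem second_test (φ φ' : ℝ → ℝ) (c : ℝ) (h1 : ∀ s, HasDerivAt φ (φ' s) s)
    (h2 : HasDerivAt φ' c 0) (hm : IsLocalMax φ 0) : φ' 0 = 0 ∧ c ≤ 0 := by
  have h3 : φ' 0 = 0 := hm.hasDerivAt_eq_zero (h1 0)
  refine ⟨h3, ?_⟩
  by_contra hc
  push Not at hc
  have e1 : deriv φ = φ' := by
    funext s
    exact (h1 s).deriv
  have e2 : deriv (deriv φ) 0 = c := by
    rw [e1]; exact h2.deriv
  have hmin : IsLocalMin φ 0 := by
    apply isLocalMin_of_deriv_deriv_pos
    · rw [e2]; exact hc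
    · rw [e1]; exact h3
    · exact (h1 0).continuousAt
  have hconst : φ =ᶠ[𝓝 0] fun _ => φ 0 := by
    filter_upwards [hm, hmin] with s hs1 hs2
    exact le_antisymm hs1 hs2
  have e3 : deriv φ =ᶠ[𝓝 0] deriv (fun _ => φ 0) := hconst.deriv
  have e4 : deriv (deriv φ) 0 = deriv (deriv (fun _ : ℝ => φ 0)) 0 := e3.deriv_eq
  rw [e2] at e4
  simp at e4
  linarith

theorem oneD (d p : ℝ) (hd : 0 < d) (w w' : ℝ → ℝ) (c : ℝ) (hw : ∀ s, HasDerivAt w (w' s) s)
    (hw' : HasDerivAt w' c 0)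
    (hm : IsLocalMax (fun s => (d - 2 * s * p - s ^ 2) ^ 2 * w s) 0) :
    d ^ 2 * c ≤ (24 * p ^ 2 + 4 * d) * w 0 := by
  have hq : ∀ s : ℝ, HasDerivAt (fun s : ℝ => d - 2 * s * p - s ^ 2) (-2 * p - 2 * s) s := by
    intro s
    have h1 : HasDerivAt (fun s : ℝ => 2 * s * p) (2 * p) s := by
      have := ((hasDerivAt_id s).const_mul 2).mul_const p
      simpa using this
    have h2 : HasDerivAt (fun s : ℝ => s ^ 2) (2 * s) s := by
      simpa using hasDerivAt_pow 2 s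
    have h3 := ((hasDerivAt_const s d).fun_sub h1).fun_sub h2
    exact h3.congr_deriv (by ring)
  have hφ : ∀ s : ℝ, HasDerivAt (fun s => (d - 2 * s * p - s ^ 2) ^ 2 * w s)
      (2 * (d - 2 * s * p - s ^ 2) * (-2 * p - 2 * s) * w s +
        (d - 2 * s * p - s ^ 2) ^ 2 * w' s) s := by
    intro s
    have h3 := ((hq s).fun_pow 2).fun_mul (hw s)
    exact h3.congr_deriv (by simp)
  have hφ' : HasDerivAt (fun s : ℝ => 2 * (d - 2 * s * p - s ^ 2) * (-2 * p - 2 * s) * w s +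
        (d - 2 * s * p - s ^ 2) ^ 2 * w' s)
      ((8 * p ^ 2 - 4 * d) * w 0 - 8 * d * p * w' 0 + d ^ 2 * c) 0 := by
    have h1 : HasDerivAt (fun s : ℝ => -2 * p - 2 * s) (-2) 0 := by
      have h3 := (hasDerivAt_const (0 : ℝ) (-2 * p)).fun_sub
        ((hasDerivAt_id' (0 : ℝ)).const_mul 2)
      exact h3.congr_deriv (by ring)
    have h2 := ((((hq 0).const_mul 2).fun_mul h1).fun_mul (hw 0)).fun_add
      (((hq 0).fun_pow 2).fun_mul hw')
    exact h2.congr_deriv (by simp; ring)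
  obtain ⟨h3, h4⟩ := second_test _ _ _ hφ hφ' hm
  have h5 : d * (d * w' 0 - 4 * p * w 0) = 0 := by
    have : 2 * (d - 2 * 0 * p - 0 ^ 2) * (-2 * p - 2 * 0) * w 0 +
        (d - 2 * 0 * p - 0 ^ 2) ^ 2 * w' 0 = 0 := h3
    linear_combination this
  have h6 : d * w' 0 = 4 * p * w 0 := by
    have := (mul_eq_zero.mp h5).resolve_left hd.ne'
    linarith
  have h7 : 8 * d * p * w' 0 = 32 * p ^ 2 * w 0 := by linear_combination 8 * p * h6
  linarith [h4, h7, show (24 * p ^ 2 + 4 * d) * w 0 = 32 * p ^ 2 * w 0 - (8 * p ^ 2 - 4 * d) * w 0 by ring]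

/-- There is no positive smooth function on the plane with Laplacian at least `2 w ^ 2`. -/
theorem keller (w : ℂ → ℝ) (hw : ContDiff ℝ ∞ w) (hpos : ∀ z, 0 < w z)
    (hL : ∀ z, 2 * (w z) ^ 2 ≤ fderiv ℝ (fun u => fderiv ℝ w u 1) z 1 +
      fderiv ℝ (fun u => fderiv ℝ w u Complex.I) z Complex.I) : False := by
  obtain ⟨R, hR⟩ : ∃ R : ℝ, R = Real.sqrt (24 / w 0) := ⟨_, rfl⟩
  have hR2 : R ^ 2 = 24 / w 0 := by rw [hR]; exact Real.sq_sqrt (by have := hpos 0; positivity)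
  have hR0 : 0 < R := by rw [hR]; apply Real.sqrt_pos.mpr; have := hpos 0; positivity
  have hcont : Continuous fun z : ℂ => (R ^ 2 - Complex.normSq z) ^ 2 * w z :=
    ((continuous_const.sub Complex.continuous_normSq).pow 2).mul hw.continuous
  obtain ⟨z1, hz1, hmax⟩ := (isCompact_closedBall (0 : ℂ) R).exists_isMaxOn
    ⟨0, Metric.mem_closedBall_self hR0.le⟩ hcont.continuousOn
  have hmax' : ∀ z ∈ Metric.closedBall (0 : ℂ) R, (R ^ 2 - Complex.normSq z) ^ 2 * w z ≤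
      (R ^ 2 - Complex.normSq z1) ^ 2 * w z1 := fun z hz => hmax hz
  have h0 := hmax' 0 (Metric.mem_closedBall_self hR0.le)
  rw [Complex.normSq_zero, sub_zero] at h0
  have hz1' : ‖z1‖ ≤ R := by simpa using hz1
  have hns : Complex.normSq z1 = ‖z1‖ ^ 2 := Complex.normSq_eq_norm_sq z1
  have hd : 0 < R ^ 2 - Complex.normSq z1 := by
    have h1 : Complex.normSq z1 ≤ R ^ 2 := by
      rw [hns]
      exact pow_le_pow_left₀ (norm_nonneg _) hz1' 2
    rcases h1.lt_or_eq with h | h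
    · linarith
    · exfalso
      rw [h] at h0
      have h2 : 0 < (R ^ 2) ^ 2 * w 0 := by have := hpos 0; positivity
      simp at h0
      linarith
  have hlt : ‖z1‖ < R := by
    rw [hns] at hd
    nlinarith [norm_nonneg z1]
  have hloc : ∀ v : ℂ, IsLocalMax (fun s : ℝ => (R ^ 2 - Complex.normSq (z1 + s * v)) ^ 2 *
      w (z1 + s * v)) 0 := by
    intro v
    have h1 : ContinuousAt (fun s : ℝ => z1 + (s : ℂ) * v) 0 := by fun_prop
    have h2 : Metric.closedBall (0 : ℂ) R ∈ 𝓝 (z1 + ((0 : ℝ) : ℂ) * v) := by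
      apply Metric.closedBall_mem_nhds_of_mem
      simpa using hlt
    have h3 := h1.preimage_mem_nhds h2
    filter_upwards [h3] with s hs
    have := hmax' _ hs
    simpa using this
  have key : ∀ v : ℂ, Complex.normSq v = 1 →
      (R ^ 2 - Complex.normSq z1) ^ 2 * fderiv ℝ (fun u => fderiv ℝ w u v) z1 v ≤
      (24 * (z1.re * v.re + z1.im * v.im) ^ 2 + 4 * (R ^ 2 - Complex.normSq z1)) * w z1 := by
    intro v hv
    have hline : ∀ s : ℝ, HasDerivAt (fun s : ℝ => z1 + (s : ℂ) * v) v s := by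
      intro s
      have h1 : HasDerivAt (fun s : ℝ => ((s : ℝ) : ℂ) * v) (1 * v) s :=
        (Complex.ofRealCLM.hasDerivAt (x := s)).mul_const v
      simpa using h1.const_add z1
    have hdw : Differentiable ℝ w := hw.differentiable (by simp)
    have hdw2 : Differentiable ℝ (fun u => fderiv ℝ w u v) :=
      ((hw.fderiv_right (m := ∞) (by simp)).clm_apply contDiff_const).differentiable (by simp)
    have h1 : ∀ s : ℝ, HasDerivAt (fun s : ℝ => w (z1 + (s : ℂ) * v))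
        (fderiv ℝ w (z1 + (s : ℂ) * v) v) s := by
      intro s
      exact (hdw _).hasFDerivAt.comp_hasDerivAt s (hline s)
    have h2 : HasDerivAt (fun s : ℝ => fderiv ℝ w (z1 + (s : ℂ) * v) v)
        (fderiv ℝ (fun u => fderiv ℝ w u v) (z1 + ((0 : ℝ) : ℂ) * v) v) 0 :=
      HasFDerivAt.comp_hasDerivAt (0 : ℝ) (l := fun u => fderiv ℝ w u v) (hdw2 _).hasFDerivAt (hline 0)
    have h3 : (fun s : ℝ => (R ^ 2 - Complex.normSq (z1 + s * v)) ^ 2 * w (z1 + s * v)) =
        fun s : ℝ => ((R ^ 2 - Complex.normSq z1) - 2 * s * (z1.re * v.re + z1.im * v.im) -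
          s ^ 2) ^ 2 * w (z1 + s * v) := by
      funext s
      congr 2
      have hv' : v.re * v.re + v.im * v.im = 1 := by rw [← Complex.normSq_apply]; exact hv
      rw [Complex.normSq_apply, Complex.normSq_apply]
      simp
      linear_combination (-(s ^ 2)) * hv'
    have h4 := hloc v
    rw [h3] at h4
    have h5 := oneD _ _ hd _ _ _ h1 h2 h4
    simpa using h5
  have k1 := key 1 (by simp)
  have k2 := key Complex.I (by simp)
  simp only [Complex.one_re, Complex.one_im, Complex.I_re, Complex.I_im, mul_one, mul_zero,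
    add_zero, zero_add] at k1 k2
  have hL1 := hL z1
  have hw1 := hpos z1
  have hnn : Complex.normSq z1 = z1.re * z1.re + z1.im * z1.im := Complex.normSq_apply z1
  obtain ⟨d, hdd⟩ : ∃ d, d = R ^ 2 - Complex.normSq z1 := ⟨_, rfl⟩
  rw [← hdd] at k1 k2 hd h0
  have k3 : d ^ 2 * (2 * (w z1) ^ 2) ≤ 24 * R ^ 2 * w z1 := by
    have k4 : d ^ 2 * (2 * (w z1) ^ 2) ≤ d ^ 2 * (fderiv ℝ (fun u => fderiv ℝ w u 1) z1 1 +
      fderiv ℝ (fun u => fderiv ℝ w u Complex.I) z1 Complex.I) :=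
      mul_le_mul_of_nonneg_left hL1 (by positivity)
    have k5 : (24 * z1.re ^ 2 + 4 * d) * w z1 + (24 * z1.im ^ 2 + 4 * d) * w z1 ≤
        24 * R ^ 2 * w z1 := by
      have k6 : 24 * z1.re ^ 2 + 4 * d + (24 * z1.im ^ 2 + 4 * d) ≤ 24 * R ^ 2 := by
        nlinarith
      nlinarith
    nlinarith
  have k7 : d ^ 2 * w z1 ≤ 12 * R ^ 2 := by
    have : w z1 * (d ^ 2 * w z1) ≤ w z1 * (12 * R ^ 2) := by nlinarith
    exact le_of_mul_le_mul_left this hw1
  have k8 : (R ^ 2) ^ 2 * w 0 ≤ 12 * R ^ 2 := le_trans h0 k7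
  rw [hR2] at k8
  have hw0 := hpos 0
  have k9 : (24 / w 0) ^ 2 * w 0 = 24 * (24 / w 0) := by
    field_simp
  rw [k9] at k8
  have : 0 < 24 / w 0 := by positivity
  linarith

theorem fderiv_ofReal {g : ℂ → ℝ} (hg : Differentiable ℝ g) (z v : ℂ) :
    fderiv ℝ (fun u => ((g u : ℝ) : ℂ)) z v = ((fderiv ℝ g z v : ℝ) : ℂ) := by
  have h := (Complex.ofRealCLM.hasFDerivAt (x := g z)).comp z (hg z).hasFDerivAt
  have h2 : HasFDerivAt (fun u => ((g u : ℝ) : ℂ)) (Complex.ofRealCLM.comp (fderiv ℝ g z)) z := h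
  rw [h2.fderiv]
  simp

theorem laplace {g : ℂ → ℝ} (hg : ContDiff ℝ ∞ g) (z : ℂ) :
    (dzbar (dz (fun u => ((g u : ℝ) : ℂ))) z).re =
      (fderiv ℝ (fun u => fderiv ℝ g u 1) z 1 +
        fderiv ℝ (fun u => fderiv ℝ g u Complex.I) z Complex.I) / 4 := by
  have hd : Differentiable ℝ g := hg.differentiable (by simp)
  have hd2 : ∀ v : ℂ, Differentiable ℝ (fun u => fderiv ℝ g u v) := fun v =>
    ((hg.fderiv_right (m := ∞) (by simp)).clm_apply contDiff_const).differentiable (by simp)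
  have e1 : dz (fun u => ((g u : ℝ) : ℂ)) = fun u =>
      (((fderiv ℝ g u 1 : ℝ) : ℂ) - Complex.I * ((fderiv ℝ g u Complex.I : ℝ) : ℂ)) / 2 := by
    funext u
    unfold dz
    rw [fderiv_ofReal hd, fderiv_ofReal hd]
  have hc : ∀ v : ℂ, Differentiable ℝ (fun u => ((fderiv ℝ g u v : ℝ) : ℂ)) := fun v =>
    Complex.ofRealCLM.differentiable.comp (hd2 v)
  have e2 : ∀ v : ℂ, fderiv ℝ (fun u => (((fderiv ℝ g u 1 : ℝ) : ℂ) -
      Complex.I * ((fderiv ℝ g u Complex.I : ℝ) : ℂ)) / 2) z v =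
      (((fderiv ℝ (fun u => fderiv ℝ g u 1) z v : ℝ) : ℂ) -
        Complex.I * ((fderiv ℝ (fun u => fderiv ℝ g u Complex.I) z v : ℝ) : ℂ)) / 2 := by
    intro v
    have h1 := ((hc 1) z).hasFDerivAt
    have h2 := ((hc Complex.I) z).hasFDerivAt
    have h3 := (h1.fun_sub (h2.const_mul Complex.I)).mul_const ((2 : ℂ)⁻¹)
    simp only [div_eq_mul_inv]
    rw [h3.fderiv]
    rw [← fderiv_ofReal (hd2 1) z v, ← fderiv_ofReal (hd2 Complex.I) z v]
    simp
    ring
  rw [e1]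
  unfold dzbar
  rw [e2, e2]
  simp
  ring

theorem no_metric (H : ℂ → Matrix (Fin 3) (Fin 3) ℂ) (h : IsHarmonic (fun _ => A0) H) : False := by
  have hS : Sm H := h.smooth
  have hd := h.det_ne
  obtain ⟨g, hg⟩ : ∃ g : ℂ → ℝ, g = fun z => (A0 * ((H z)⁻¹ * A0ᴴ * H z)).trace.re := ⟨_, rfl⟩
  have hsm : ContDiff ℝ ∞ fun z => (A0 * ((H z)⁻¹ * A0ᴴ * H z)).trace :=
    ((Sm.const A0).mul (((hS.inv hd).mul (Sm.const A0ᴴ)).mul hS)).trace
  have hgs : ContDiff ℝ ∞ g := by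
    rw [hg]
    exact Complex.reCLM.contDiff.comp hsm
  have hf : (fun z => (A0 * ((H z)⁻¹ * A0ᴴ * H z)).trace) = fun z => ((g z : ℝ) : ℂ) := by
    funext z
    rw [hg]
    apply Complex.ext
    · simp
    · rw [(pointwise (h.posDef z)).2.2.1]; simp
  have hw : ContDiff ℝ ∞ fun z => g z - 24 := hgs.sub contDiff_const
  have hfd : ∀ u : ℂ, fderiv ℝ (fun z => g z - 24) u = fderiv ℝ g u := fun u =>
    fderiv_sub_const (24 : ℝ)
  apply keller (fun z => g z - 24) hw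
  · intro z
    have := (pointwise (h.posDef z)).2.1
    rw [hg]
    linarith
  · intro z
    simp only [hfd]
    have h1 := bochner h z
    rw [hf] at h1
    have h2 := laplace hgs z
    rw [h1, Complex.add_re] at h2
    obtain ⟨p1, p2, p3, p4⟩ := pointwise (h.posDef z)
    have p5 := p4 (((H z)⁻¹ * mdz H z) * A0 - A0 * ((H z)⁻¹ * mdz H z))
    have e : (A0 * ((H z)⁻¹ * A0ᴴ * H z)).trace.re = g z := by rw [hg]
    rw [e] at p1
    linarith

/-- There are `n ≥ 2` and holomorphic differentials `q_2, …, q_n` on the plane, not all zero, such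
that the Higgs bundle `(K_{X,n}, θ(q))` of the Hitchin section on the plane has no harmonic metric
(we take `n = 3`, `q_2 = 6 dz ^ 2`, `q_3 = - 16 dz ^ 3`). -/
theorem result : ∃ n : ℕ, 2 ≤ n ∧ ∃ q : ℕ → ℂ → ℂ, (∀ j, Differentiable ℂ (q j)) ∧
    (∃ j, 2 ≤ j ∧ j ≤ n ∧ ∃ z, q j z ≠ 0) ∧ ¬ ∃ H, IsHarmonic (higgs n q) H := by
  refine ⟨3, by norm_num, fun j _ => if j = 2 then 6 else if j = 3 then -16 else 0, ?_, ?_, ?_⟩
  · intro j
    exact differentiable_const _
  · exact ⟨2, le_refl _, by norm_num, 0, by norm_num⟩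
  · rintro ⟨H, h⟩
    apply no_metric H
    have e : higgs 3 (fun j _ => if j = 2 then 6 else if j = 3 then -16 else 0) =
        fun _ => A0 := by
      funext z
      ext i j
      unfold higgs A0
      fin_cases i <;> fin_cases j <;> simp
    rw [e] at h
    exact h

end Pool.Agent.Results.MP_4f0bc7_gt.ConstantOnPlane
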